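import Pool.Agent.Helper65.HC.Defs
import Pool.Agent.Helper81.Sus2.Defs

/-!
# Circuits of unbounded size whose states are compressible from time to time: definitions
-/

namespace Pool.Agent.Helper65.HCS

open Pool.Agent.Helper65.LinSpace Pool.Agent.Helper78.Mpc Pool.Agent.Helper65.HC
open Pool.Agent.Helper81.Sus2 (Decomp)

/-- After `t` gates the circuit is described by at most `z` bits: there is a word from which the
decompressor `E` computes, for every later gate `i ≤ r` (if it is given the number `i` in binary), the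
state of the gate `i` after it has read the values of the gates before `t`. -/
def Short (A : Circ) (E : Decomp) (w y : List Bool) (a z r t : ℕ) : Prop :=
  ∃ D : List Bool, D.length ≤ z ∧ ∀ i, t ≤ i → i ≤ r → (w ++ y).length ≤ i →
    E.Says w y a D i.bits (A.scan w.length i (A.vals w y i) t)

/-- `A` accepts the input word `w` with the advice word `y` at some gate `r < 2 ^ a`, and the
following bounds hold: values and states have at most `s` bits, and whenever the circuit is not
described by at most `c n` bits after `u` gates for any `u` strictly between `t` and `t' ≤ r`, then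
`t' ≤ t + x`. Here `x s l ^ 3 ≤ C (n + 1) ^ 2`, `s l ^ 2 ≤ C (n + 1)` and `a l ^ 2 ≤ C (n + 1)`; `n` is the
length of `w`, and `l = ⌊log₂ n⌋ + 1`. -/
def Within (A : Circ) (E : Decomp) (c : ℕ) (C : ℝ) (w y : List Bool) : Prop :=
  ∃ r s a x : ℕ, A.AcceptsAt w y r ∧ A.Fits w y r s ∧ r < 2 ^ a ∧
    (∀ t t' : ℕ, t ≤ t' → t' ≤ r →
      (∀ u, t < u → u < t' → ¬Short A E w y a (c * w.length) r u) → t' ≤ t + x) ∧
    (x : ℝ) * s * ((Nat.log 2 w.length : ℝ) + 1) ^ 3 ≤ C * ((w.length : ℝ) + 1) ^ 2 ∧
    (s : ℝ) * ((Nat.log 2 w.length : ℝ) + 1) ^ 2 ≤ C * ((w.length : ℝ) + 1) ∧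
    (a : ℝ) * ((Nat.log 2 w.length : ℝ) + 1) ^ 2 ≤ C * ((w.length : ℝ) + 1)

end Pool.Agent.Helper65.HCS
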