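import Pool.Agent.Helper94.HCS.FIN
import Pool.Agent.Helper30.HCS.WIN
import Pool.Agent.Helper12.HCS.CODE
import Pool.Agent.Helper93.HCS.CHK
import Pool.Agent.Helper14.HCS.LSP
import Pool.Agent.Helper15.HCS.LSW
import Pool.Agent.Helper83.HCS.LSK
import Pool.Agent.Helper35.HCS.PAR

/-!
# Circuits of unbounded size whose states are compressible from time to time: the theorem
-/

namespace Pool.Agent.Helper65.HCS

theorem sustained : FIN_stmt :=
  Pool.Agent.Helper94.HCS.fin Pool.Agent.Helper30.HCS.win Pool.Agent.Helper12.HCS.code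
    Pool.Agent.Helper93.HCS.chk
    (Pool.Agent.Helper83.HCS.lsk Pool.Agent.Helper14.HCS.lsp
      (Pool.Agent.Helper15.HCS.lsw Pool.Agent.Helper14.HCS.lsp))
    Pool.Agent.Helper35.HCS.par

end Pool.Agent.Helper65.HCS
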