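import Pool.Agent.Helper65.HCS.Final
import Pool.Agent.Helper65.Gen3.Final

/-!
# Circuits of unbounded size whose states are compressible from time to time: hardness with advice
-/

namespace Pool.Agent.Helper65.HCS

open Pool.Agent.Helper65.LinSpace Pool.Agent.Helper78.Mpc Pool.Agent.Helper28.Ram
open Pool.Agent.Helper65.HC
open Pool.Agent.Helper81.Sus2 (Decomp)

theorem sustained3 (c : ℕ) (hc : 0 < c) :
    (∀ (A : Circ) (E : Decomp) (L : Set (List Bool)) (C : ℝ),
      (∀ w, Alt true (c * w.length) (fun v => ∃ r, A.AcceptsAt w v r) → w ∈ L) →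
      (∀ w ∈ L, Alt true (c * w.length) (Within A E c C w)) → DLINSPACE L) ∧
    ∃ L : Set (List Bool), DLINSPACE L ∧
      ∀ (A : Circ) (E : Decomp) (C : ℝ), ∃ c' : ℝ, ∀ (n : ℕ) (α : List Bool),
        ∀ M, M = L ∨ M = Lᶜ →
          ({w : List Bool | w.length = n ∧
            (Alt true (c * n) (fun v => ∃ r, A.AcceptsAt w (α ++ v) r) → w ∈ M) ∧
            (w ∈ M → Alt true (c * n) fun v => Within A E c C w (α ++ v))}.ncard : ℝ) ≤
          2 ^ n / 2 + c' * ((α.length : ℝ) + 1) * 2 ^ (((n : ℝ) + α.length / c) / 2) := by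
  have hgood : ∀ (A : Circ) (E : Decomp) (C : ℝ), _ :=
    Pool.Agent.Helper94.HCS.exists_good Pool.Agent.Helper30.HCS.win Pool.Agent.Helper12.HCS.code
      Pool.Agent.Helper93.HCS.chk Pool.Agent.Helper35.HCS.par c
  have hls := Pool.Agent.Helper83.HCS.lsk Pool.Agent.Helper14.HCS.lsp
    (Pool.Agent.Helper15.HCS.lsw Pool.Agent.Helper14.HCS.lsp) c
  refine ⟨(sustained c).1, ?_⟩
  obtain ⟨L, h1, h2⟩ := Pool.Agent.Helper65.Gen3.alt_main (accF c) NF hls.1 hls.2 c c hc
  refine ⟨L, h1, fun A E C => ?_⟩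
  have h := h2 (fun w y => ∃ r, A.AcceptsAt w y r) (Within A E c C) (hgood A E C)
  simp only [Pool.Agent.Helper28.Few.alt_iff] at h
  exact h

end Pool.Agent.Helper65.HCS
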