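import Pool.Agent.Helper65.HCS.Num
import Pool.Agent.Helper78.Gen2.Main

/-!
# Circuits of unbounded size: the statements of the parts

Every statement comes with its proof in words.
-/

namespace Pool.Agent.Helper65.HCS

open Pool.Agent.Helper65.LinSpace Pool.Agent.Helper78.Mpc Pool.Agent.Helper28.Ram Finset Filter
open Pool.Agent.Helper65.HC
open Pool.Agent.Helper81.Sus2 (Decomp CodE)

/-- The configuration with the number `c` describes the circuit after `t` gates, for the gates up to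
`r`. -/
structure Rep (A : Circ) (w y : List Bool) (P : Prm) (r c t : ℕ) : Prop where
  ne : c ≠ 0
  ct : P.ct c = t
  len : ∀ i, t ≤ i → i ≤ r → (w ++ y).length ≤ i →
    (A.scan w.length i (A.vals w y i) t).length ≤ P.S
  pre : ∀ i, t ≤ i → i ≤ r → (w ++ y).length ≤ i →
    P.pre c i = num (A.scan w.length i (A.vals w y i) t)

/-- The windows on numbers are right for the gates up to `r`. -/
structure Right (A : Circ) (w y : List Bool) (P : Prm) (r : ℕ) : Prop where
  v1 : ∀ c t, Rep A w y P r c t → ∀ e, t + e ≤ r → (P.win c).val e ≠ 0 →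
    (P.win c).val e = num (A.val w y (t + e)) ∧ (A.val w y (t + e)).length ≤ P.S
  s1 : ∀ c t, Rep A w y P r c t → ∀ τ i, t + τ ≤ i → i ≤ r → (w ++ y).length ≤ i →
    P.sta (P.win c).val c τ i ≠ 0 →
    P.sta (P.win c).val c τ i = num (A.scan w.length i (A.vals w y i) (t + τ)) ∧
      (A.scan w.length i (A.vals w y i) (t + τ)).length ≤ P.S
  v2 : A.Fits w y r P.S → ∀ c t, Rep A w y P r c t → ∀ e, t + e ≤ r →
    (P.win c).val e = num (A.val w y (t + e))
  s2 : A.Fits w y r P.S → ∀ c t, Rep A w y P r c t → ∀ τ i, t + τ ≤ i → i ≤ r →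
    (w ++ y).length ≤ i →
    P.sta (P.win c).val c τ i = num (A.scan w.length i (A.vals w y i) (t + τ))

/-- WIN. Circuits on words and windows on numbers. Similar to WCS of `HC/Goals.lean` (packet 9062 of
helper72), which is the case `t = 0`. The codes come from `fnN_spec`; `c` is the sum of the two
constants. `fnN e S … (num u)` is `num (f u)` if `|f u| ≤ S` and `0` otherwise, if
`c' * (S + |u| + 2) ≤ Λ`, `c' + Λ + S + |u| + 1 ≤ β`, `2 ^ (S + 1) ≤ M`. For `i < 2 ^ k` we have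
`|i.bits| ≤ k`, `bitsN i = num i.bits` (`bitsN_eq`), so all arguments `u` have at most
`3 (2 k + 1) + 2 S + 1 + S` letters; `sdN_num`, `catN_num`, `letN_num` (`letN (num v) i = codeO v[i]?`),
`Nat.log 2 (num w) = |w|` (`log_num`), `num [false, b] = 4 + 2 * b.toNat`. Fix `c`, `t` with `Rep … r c t`,
`m = P.win c`. For `e > 0` the last state of the gate `e` of `m`, `m.sc e (m.W e) e`, is
`P.sta m.val c e (t + e)`: the first step has `j = 0` and uses `P.pre c (t + e)` instead of the state `st`,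
all others have `j ≠ 0`; `dig (2 ^ (S + 1)) (m.W e) j = m.val j` for `j < e` (in `HC/TREE.lean` of
helper79, using `m.Ok`-like bounds; here only `m.val j < 2 ^ (S + 1)` is needed, which holds by `capN_lt`).
So `m.val e = P.out (t + e) (P.sta m.val c e (t + e))` for all `e` (also `e = 0`). By strong induction on
`e` one shows `v1` for `e`, and for the states:
(s1) for `t + τ ≤ i ≤ r`, `i` not a letter, by induction on `τ`: the state `0` stays `0` (`ifz (q * v) 0 …`,
`capN _ 0 = 0`), so if the state after `τ + 1` is not `0` then the state after `τ` and `m.val τ` are not `0`,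
so both are right (`v1` for `τ < e`), with lengths `≤ S`; `A.vals w y i (t + τ) = A.val w y (t + τ)` since
`t + τ < i` (induction on `i`), and `fnN_spec`, `capN` give the step. The start is `Rep.pre`, `Rep.len`.
(v1) if `t + e` is a letter then this is the definition of `P.out` and `A.gate`; otherwise `out` with
the state `0` is `0`, so the state is right by (s1) and `fnN_spec` gives the claim (`A.val` is `A.out` of
the header and the state after all `t + e` gates).
(v2), (s2): the same induction with all lengths `≤ S` by `Fits` (states: `scan … i (A.vals w y i) j` for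
`j ≤ i ≤ r`, `i` not a letter; values up to `r`). -/
def WIN_stmt : Prop := ∀ A : Circ, ∃ eS eO c : ℕ, ∀ (w y : List Bool) (P : Prm) (k r : ℕ),
    P.eS = eS → P.eO = eO → P.x = num w → P.y = num y → w.length < 2 ^ k → r < 2 ^ k →
    c * (4 * P.S + 6 * k + 8) ≤ P.Λ → c + P.Λ + 4 * P.S + 6 * k + 8 ≤ P.β → 2 ^ (P.S + 1) ≤ P.M →
    Right A w y P r

/-- CODE. The codes of a decompressor, as in `Helper81/Sus2/COD.lean`: `fnN_spec` for the two
functions. `CodE` only uses `P.dc.fD`, `P.dc.fX`, that is `fnN eD Z Λ β M` and `fnN eX Z Λ β M`. -/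
def CODE_stmt : Prop := ∀ E : Decomp, ∃ eD eX c : ℕ, ∀ P : Prm, P.eD = eD → P.eX = eX →
    c * (8 * P.Z + 8) ≤ P.Λ → c + P.Λ + 8 * P.Z + 8 ≤ P.β → 2 ^ (P.Z + 2) ≤ P.M → CodE E P.dc

/-- CHK. The checks, if the windows are right. `(P.win c).Ok` holds by `capN_lt` and `0 < P.B`, so
TREE (`Pool.Agent.Helper79.HC.tree`) gives `(P.win c).sim e = (P.win c).val e` for `e < P.N = P.K * P.B`, and
`P.sta (P.win c).sim c τ i = P.sta (P.win c).val c τ i` for `τ ≤ P.N`.
(1) If `chk r c τ d ≠ 0` then all factors are `1`: `c ≠ 0`, `d ≠ 0`, `0 < τ`, `ct d = ct c + τ = t + τ`, and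
no `i < 2 ^ b` is bad. Let `t + τ ≤ i ≤ r < 2 ^ b`, `i` not a letter (so `letN (catN x y) i = 0`, since
`catN (num w) (num y) = num (w ++ y)` and `letN_num`). Then the state `sta … c τ i` is not `0` and equal to
`lk (cD d) (bitsN i)`. By `Right.s1` it is `num` of the state, of length `≤ S`, so `capN S` keeps it, and as
`ct d = t + τ > 0`, `pre d i` is this number.
(2) `ac r c τ ≠ 0` gives `t + τ = r` and `accN ((P.win c).sim τ) ≠ 0`, so the value of the gate `τ` is not
`0` (`accN 0 = 0`) and right by `v1`; `accN (num u) = 1` iff `u` begins with `true` (`accN_num`).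
(3) The first part: `v2`. The second part: `D` describes the circuit after `u` gates,
`d = 1 + u + 2 ^ b * num D`; `u ≤ r < 2 ^ b`, `num D < 2 ^ (z + 1)`, so `d < cz`, `ct d = u`, `cD d = num D`. For
`u ≤ i ≤ r`, not a letter, `lk (num D) (bitsN i) = num (…)` (`bitsN_eq`) by the hypothesis, which is
`sta … c (u - t) i` by `s2`, and `num _ ≠ 0`. If `i < u` or `r < i` or `i` is a letter then `bad` is `0` by
definition. -/
def CHK_stmt : Prop := ∀ (A : Circ) (w y : List Bool) (P : Prm) (r : ℕ), Right A w y P r →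
    P.x = num w → P.y = num y → 0 < P.B → r < 2 ^ P.b →
    (∀ c t τ d, Rep A w y P r c t → τ < P.N → P.chk r c τ d ≠ 0 →
      Rep A w y P r d (t + τ) ∧ 0 < τ) ∧
    (∀ c t τ, Rep A w y P r c t → τ < P.N → P.ac r c τ ≠ 0 → A.AcceptsAt w y r) ∧
    (A.Fits w y r P.S → A.AcceptsAt w y r → ∀ c t, Rep A w y P r c t →
      (∀ τ, t + τ = r → τ < P.N → P.ac r c τ ≠ 0) ∧
      ∀ (E : Decomp) (u : ℕ),
        (∀ D i v : List Bool, E.Says w y P.Z D i v → P.dc.lk (num D) (num i) = num v) →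
        t < u → u ≤ r → u < t + P.N → Short A E w y P.Z P.z r u →
        ∃ d < P.cz, P.chk r c (u - t) d ≠ 0)

/-- LSP. The basic functions are computed in linear space. `S ≤ q - 1` with `q = qT n ≥ 1`,
`S, b ≤ ZL n ≤ n`; `2 ^ b ≤ 2 ^ n`, `2 ^ (z + 1) ≤ 2 * 2 ^ (c₀ n)`; `dig` of `T` is at most `T`. `LS.fnN` as in
`lsm_machH` of `Few/Mach.lean` (bounds `CR x`), `Helper94/HC/LSW.lean` (step and out), and
`Helper81/Sus2/LSW.lean` or `LSE.lean` (the function `lk` of the decompressor: `LS.nrec` with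
`2 ^ (Z + 1)` steps and states smaller than `2 ^ (Z + 1)`, powers of two with bounded exponents).
`LS.ZL`, `Pool.Agent.Helper65.RT.ls_qT`, `LS.letN`, `LS.catN`, `LS.sdN`, `LS.bitsN`. -/
def LSP_stmt : Prop := ∀ (c₀ : ℕ) {α : Type} [Ctx α] {e x y T : α → ℕ}, LS e → LS x → LS y → LS T →
    (∀ {i j q v : α → ℕ}, LS i → LS j → LS q → LS v →
      LS (fun z => (prm c₀ (e z) (x z) (y z) (T z)).step (i z) (j z) (q z) (v z))) ∧
    (∀ {i q : α → ℕ}, LS i → LS q → LS (fun z => (prm c₀ (e z) (x z) (y z) (T z)).out (i z) (q z))) ∧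
    (∀ {D i : α → ℕ}, LS D → LS i →
      LS (fun z => (prm c₀ (e z) (x z) (y z) (T z)).dc.lk (D z) (bitsN (i z)))) ∧
    (∀ {c : α → ℕ}, LS c → LS (fun z => (prm c₀ (e z) (x z) (y z) (T z)).ct (c z)) ∧
      LS (fun z => (prm c₀ (e z) (x z) (y z) (T z)).cD (c z))) ∧
    (∀ {c i : α → ℕ}, LS c → LS i → LS (fun z => (prm c₀ (e z) (x z) (y z) (T z)).pre (c z) (i z))) ∧
    LS (fun z => (prm c₀ (e z) (x z) (y z) (T z)).S) ∧
    LS (fun z => (prm c₀ (e z) (x z) (y z) (T z)).B) ∧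
    LS (fun z => (prm c₀ (e z) (x z) (y z) (T z)).K) ∧
    LS (fun z => 2 ^ (prm c₀ (e z) (x z) (y z) (T z)).b) ∧
    LS (fun z => (prm c₀ (e z) (x z) (y z) (T z)).cz)

/-- LSW (may assume LSP). The windows form a family computed in linear space. The functions of the
family are used in the context `α × ℕ × …`; compose the `LS` hypotheses with `Prod.fst`. The bounds as in
`Helper94/HC/LSW.lean`: `q / (S + 1) ≥ 1` and `(S + 1) * (q / (S + 1)) ≤ q`; `2 ^ (σ * B) ≤ 2 ^ q ≤ CT x`. -/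
def LSW_stmt : Prop := ∀ (c₀ : ℕ) {α : Type} [Ctx α] {e x y T c : α → ℕ}, LS e → LS x → LS y →
    LS T → LS c →
    LSM (fun z => (prm c₀ (e z) (x z) (y z) (T z)).win (c z)) (fun z => RT.CT (x z)) ∧
    ∀ z, ((prm c₀ (e z) (x z) (y z) (T z)).win (c z)).σ *
        ((prm c₀ (e z) (x z) (y z) (T z)).win (c z)).B ≤ RT.qT (Nat.log 2 (x z)) ∧
      ((prm c₀ (e z) (x z) (y z) (T z)).win (c z)).K ≤ RT.qT (Nat.log 2 (x z))

/-- LSK (may assume LSP, LSW; LSV is proved: `Pool.Agent.Helper83.HC.lsv`). LSV gives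
`(win (c z)).sim (i z)`. `sta` by `LS.nrec` (values smaller than `2 ^ (S + 1)`; the number of steps is
`τ`), `bad`, `chk` by `LS.sum_le` (terms at most `1`, `2 ^ b` terms), `Pool.Agent.Helper31.SusD.LS.itr` for
the sequence, `accF` by `LS.sum_le` (for the inner sums use a bound like `cz * N`). `NF` is clear. -/
def LSK_stmt : Prop := ∀ c₀ : ℕ,
    LS (fun z : ℕ × ℕ × ℕ × ℕ => accF c₀ z.1 z.2.1 z.2.2.1 z.2.2.2) ∧ LS NF

/-- PAR. (1) `HC.PAR_stmt` (proved: `Pool.Agent.Helper14.HC.par`) with `r = x` gives the claims on `s` and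
`x`; `a ≤ ZL n` by `Long.le_ZL`; `ZL n ≤ n`. (2) Since `ll n` is small compared with `LW n`; see
`Pool.Agent.Helper14.HC.par`, and `ev_par` in `Long/Par.lean`. `S, b ≤ ZL n ≤ n`, so
`2 ^ (S + 1), 2 ^ (b + 2) ≤ CR x`. -/
def PAR_stmt : Prop :=
  (∀ C : ℝ, ∀ᶠ n : ℕ in atTop, ∀ x s a : ℕ, 1 ≤ s →
    (x : ℝ) * s * ((Nat.log 2 n : ℝ) + 1) ^ 3 ≤ C * ((n : ℝ) + 1) ^ 2 →
    (s : ℝ) * ((Nat.log 2 n : ℝ) + 1) ^ 2 ≤ C * ((n : ℝ) + 1) →
    (a : ℝ) * ((Nat.log 2 n : ℝ) + 1) ^ 2 ≤ C * ((n : ℝ) + 1) →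
    s ≤ RT.qT n - 1 ∧ s ≤ Pool.Agent.Helper28.Long.ZL n ∧ a ≤ Pool.Agent.Helper28.Long.ZL n ∧
      s < n + 2 ∧ a < n + 2 ∧ x < RT.qT n * (RT.qT n / (s + 1))) ∧
  ∀ c : ℕ, ∀ᶠ n : ℕ in atTop, ∀ S ≤ Pool.Agent.Helper28.Long.ZL n,
    ∀ b ≤ Pool.Agent.Helper28.Long.ZL n,
    c * (4 * S + 6 * (b + ll n) + 8) ≤ LW n ∧
    c + LW n + 4 * S + 6 * (b + ll n) + 8 ≤ 2 ^ (2 * ll n) ∧
    c * (8 * b + 8) ≤ LW n ∧ c + LW n + 8 * b + 8 ≤ 2 ^ (2 * ll n) ∧
    (∀ x : ℕ, Nat.log 2 x = n → 2 ^ (S + 1) ≤ CR x ∧ 2 ^ (b + 2) ≤ CR x)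

/-- FIN (may assume WIN, CODE, CHK, LSK, PAR; DEC is proved in `Helper81/Sus2/DEC.lean`). As
`HC/Fin.lean`, with `Gen2.alt_main`, `Gen2.alt_lin` for `accF c`, and
`e = Nat.pair (Nat.pair eS eO) (Nat.pair eD eX)`, `P = prm c e (num w) (num y) T`, `k = b + ll n`. `Rep … r 1 0`
holds by definition. (a) If `accF ≠ 0` then for some `r < 2 ^ b`, `j`, `τ < N` the number `ac r (itr … j) τ` is
not `0`, so `itr … j ≠ 0`, and `itr_sound` (`Helper31/SusD/Grd.lean`) with `R = Rep A w y P r` gives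
`Rep … r (itr … j) t`; use (2) of CHK. (b) If `Within A E c C w y` with `r`, `s`, `a`, `x` (`1 ≤ s` since
`A.val w y r` is not empty) then `T = s + (n + 2) * a < NF x` works, `sT n T = s`, `aT n T = a`, `x < N`. By
`itr_complete` (with this `r`) and CHK it remains to see for `Rep … r c t`, `t ≤ r`: if `r < t + N` take
`τ = r - t`; otherwise `t' = t + N ≤ r` would give `N ≤ x` if no `u` strictly between is `Short`; so there is
such a `u`; take `τ = u - t`. -/
def FIN_stmt : Prop := ∀ c : ℕ,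
    (∀ (A : Circ) (E : Decomp) (L : Set (List Bool)) (C : ℝ),
      (∀ w, Alt true (c * w.length) (fun v => ∃ r, A.AcceptsAt w v r) → w ∈ L) →
      (∀ w ∈ L, Alt true (c * w.length) (Within A E c C w)) → DLINSPACE L) ∧
    ∃ (L : Set (List Bool)) (s : ℕ → List Bool), DLINSPACE L ∧
      (∀ n, (s n).length = n) ∧
      (∀ w, w ∈ L ↔ Odd ((List.zipWith and (s w.length) w).count true)) ∧
      ∀ (A : Circ) (E : Decomp) (C : ℝ), ∃ c' : ℝ, ∀ (n : ℕ) (α : List Bool),
        ∀ M, M = L ∨ M = Lᶜ →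
          ({w : List Bool | w.length = n ∧
            (Alt true (c * n) (fun v => ∃ r, A.AcceptsAt w (α ++ v) r) → w ∈ M) ∧
            (w ∈ M → Alt true (c * n) fun v => Within A E c C w (α ++ v))}.ncard : ℝ) ≤
          2 ^ n / 2 +
            c' * ((min α.length (n - α.length) : ℕ) + 1) * 2 ^ (((n : ℝ) + α.length) / 2)

end Pool.Agent.Helper65.HCS
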