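import Pool.Agent.Helper65.HCS.Defs
import Pool.Agent.Helper65.HC.Goals
import Pool.Agent.Helper81.Sus2.Goals
import Pool.Agent.Helper31.SusD.Grd

/-!
# Circuits of unbounded size: windows of gates on numbers

A window consists of the gates `t, t + 1, …`; the states of these gates after they have read the
gates before `t` are computed by the decompressor from the number `D` of a description. The
configuration `(t, D)` has the number `1 + t + 2 ^ b * D`, where `t < 2 ^ b`; the number `0` stands for
failure. For `t = 0` all gates are in the first state.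
-/

namespace Pool.Agent.Helper65.HCS

open Pool.Agent.Helper65.LinSpace Pool.Agent.Helper78.Mpc Pool.Agent.Helper28.Ram Finset
open Pool.Agent.Helper31.SusD (itr)

/-- The codes of the functions of a circuit and a decompressor, the input, and the bounds. -/
structure Prm extends HC.Prm where
  eD : ℕ
  eX : ℕ
  /-- the length of the states of the decompressor -/
  Z : ℕ
  /-- numbers of gates are smaller than `2 ^ b` -/
  b : ℕ
  /-- the length of descriptions -/
  z : ℕ
  /-- the number of gates of a group of the simulation -/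
  B : ℕ
  /-- the number of groups -/
  K : ℕ

namespace Prm

variable (P : Prm)

/-- The parameters of the decompressor. -/
def dc : Pool.Agent.Helper81.Sus2.Prm where
  eA := 0
  eN := 0
  eW := 0
  eK := 0
  eG := 0
  eR := 0
  eD := P.eD
  eX := P.eX
  ini := 0
  B0 := 0
  st := 0
  Λ := P.Λ
  β := P.β
  B := P.M
  x := P.x
  y := P.y
  S := 0
  Z := P.Z
  u := 0
  V := 0
  z := 0

/-- The number `t` of the configuration `c`. -/
def ct (c : ℕ) : ℕ := (c - 1) % 2 ^ P.b

/-- The description of the configuration `c`. -/
def cD (c : ℕ) : ℕ := (c - 1) / 2 ^ P.b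

/-- The number of configurations. -/
def cz : ℕ := 2 ^ P.b * 2 ^ (P.z + 1) + 1

/-- The state of the gate `i` after it has read the first `ct c` gates, according to the
configuration `c`. -/
def pre (c i : ℕ) : ℕ := ifz (P.ct c) 1 (capN P.S (P.dc.lk (P.cD c) (bitsN i)))

/-- The window of the configuration `c`, as a circuit on numbers. The gate `i` of the window is the
gate `ct c + i`. -/
def win (c : ℕ) : HC.Mach where
  σ := P.S + 1
  B := P.B
  K := P.K
  st := 1
  step i j q v := P.step (P.ct c + i) (P.ct c + j) (ifz j (P.pre c (P.ct c + i)) q) v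
  out i q := P.out (P.ct c + i) (ifz i (P.pre c (P.ct c)) q)

/-- The length of a window. -/
def N : ℕ := P.K * P.B

/-- The state of the gate `i` after it has read the first `ct c + τ` gates, `v` being the values of
the gates of the window. -/
def sta (v : ℕ → ℕ) (c τ i : ℕ) : ℕ :=
  nrec (P.pre c i) (fun e q => P.step i (P.ct c + e) q (v e)) τ

/-- `1` if the gate `i` is checked, and the description of the configuration `d` is wrong for it. -/
def bad (r c τ d i : ℕ) : ℕ :=
  ifz (lt01 i (P.ct d) + (lt01 r i + letN (catN P.x P.y) i))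
    (1 - lt01 0 (P.sta (P.win c).sim c τ i) *
      eq01 (P.sta (P.win c).sim c τ i) (P.dc.lk (P.cD d) (bitsN i))) 0

/-- `1` if the configuration `d` describes the circuit after `τ` gates from the configuration `c`
on. -/
def chk (r c τ d : ℕ) : ℕ :=
  lt01 0 c * (lt01 0 d * (lt01 0 τ * (eq01 (P.ct d) (P.ct c + τ) *
    eq01 (∑ i ∈ range (2 ^ P.b), P.bad r c τ d i) 0)))

/-- `1` if the gate `τ` of the window of the configuration `c` is the gate `r`, and accepting. -/
def ac (r c τ : ℕ) : ℕ :=
  lt01 0 c * (eq01 (P.ct c + τ) r * accN ((P.win c).sim τ))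

/-- A number which is not `0` if the gate `r` is found to be accepting. -/
def acc (r : ℕ) : ℕ :=
  ∑ j ∈ range P.cz, ∑ τ ∈ range P.N, P.ac r (itr (P.chk r) P.N P.cz j) τ

end Prm

/-! ### The parameters

The bounds `s` and `a` are the digits `0` and `1` of `T`, in base `n + 2`. -/

/-- The bound `s`. -/
def sT (n T : ℕ) : ℕ := min (dig (n + 2) T 0) (min (RT.qT n - 1) (Pool.Agent.Helper28.Long.ZL n))

/-- The bound `a`. -/
def aT (n T : ℕ) : ℕ := min (dig (n + 2) T 1) (Pool.Agent.Helper28.Long.ZL n)

/-- The parameters for the input `x`, `y` and the bounds coded by `T`. -/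
def prm (c e x y T : ℕ) : Prm where
  eS := (Nat.unpair (Nat.unpair e).1).1
  eO := (Nat.unpair (Nat.unpair e).1).2
  eD := (Nat.unpair (Nat.unpair e).2).1
  eX := (Nat.unpair (Nat.unpair e).2).2
  Λ := LW (Nat.log 2 x)
  β := 2 ^ (2 * ll (Nat.log 2 x))
  M := CR x
  x := x
  y := y
  S := sT (Nat.log 2 x) T
  Z := aT (Nat.log 2 x) T
  b := aT (Nat.log 2 x) T
  z := c * Nat.log 2 x
  B := RT.qT (Nat.log 2 x) / (sT (Nat.log 2 x) T + 1)
  K := RT.qT (Nat.log 2 x)

/-- A number which is not `0` if the circuit accepts. -/
def accF (c e x y T : ℕ) : ℕ :=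
  ∑ r ∈ range (2 ^ (prm c e x y T).b), (prm c e x y T).acc r

/-- The number of codes of bounds. -/
def NF (x : ℕ) : ℕ := (Nat.log 2 x + 2) * (Nat.log 2 x + 2)

end Pool.Agent.Helper65.HCS
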